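import Mathlib
import Pool.Agent.Lib.MP_55068a_an.Complete

namespace Pool.Agent.Results.MP_55068a_an.Characterisation

open Polynomial Pool.Agent.Lib.MP_55068a_an

theorem result (k l : ℕ) (hk : 0 < k) (hkl : k < l) (a b : ℝ) (hab : (Vals k l a b).Nonempty)
    (x : ℝ) :
    (IsLUB (Vals k l a b) x ↔ ∃ R : ℝ[X], 0 ≤ R.coeff 0 ∧ Extremal k l a b x R) ∧
    (IsGLB (Vals k l a b) x ↔ ∃ R : ℝ[X], R.coeff 0 ≤ 0 ∧ Extremal k l a b x R) :=
  ⟨isLUB_iff_extremal hk hkl hab x, isGLB_iff_extremal hk hkl hab x⟩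

end Pool.Agent.Results.MP_55068a_an.Characterisation
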