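import Mathlib
import Pool.Agent.Lib.MP_55068a_an.Complete
import Pool.Agent.Lib.MP_55068a_an.Dy.Final
import Pool.Agent.Lib.MP_55068a_an.Lv.Main

namespace Pool.Agent.Results.MP_55068a_an.Complete

open Polynomial Pool.Agent.Lib.MP_55068a_an Pool.Agent.Lib.MP_55068a_an.Dy
  Pool.Agent.Lib.MP_55068a_an.Lv

theorem result (k l : ℕ) (hk : 0 < k) (hkl : k < l) :
    (∀ a b : ℝ, (Vals k l a b).Nonempty → ∀ x : ℝ,
      (IsLUB (Vals k l a b) x ↔ ∃ R : ℝ[X], 0 ≤ R.coeff 0 ∧ Extremal k l a b x R) ∧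
      (IsGLB (Vals k l a b) x ↔ ∃ R : ℝ[X], R.coeff 0 ≤ 0 ∧ Extremal k l a b x R)) ∧
    (Ratio k l → ∀ a b : ℝ, |a| < 1 → |b| ≤ 1 - a ^ 2 →
      IsGreatest (Vals k l a b) (F k l a b) ∧ IsLeast (Vals k l a b) (-F k l (-a) (-b)) ∧
      Rad ℚ a b (F k l a b) ∧ Rad ℚ a b (-F k l (-a) (-b))) ∧
    (¬ Ratio k l → ∃ O : Set (ℝ × ℝ), IsOpen O ∧ O.Nonempty ∧ ∃ U : ℝ × ℝ → ℝ,
      (∀ a b : ℝ, (a, b) ∈ O →
        IsGreatest (Vals k l a b) (U (a, b)) ∧ IsLeast (Vals k l (-a) (-b)) (-U (a, b))) ∧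
      ∀ B : Set (ℝ × ℝ), IsOpen B → ∀ f : ℝ × ℝ → ℂ, Liouv B f →
        IsMeagre {p | p ∈ O ∧ p ∈ B ∧ f p = (U p : ℂ)}) := by
  refine ⟨fun _ _ hab x => ⟨isLUB_iff_extremal hk hkl hab x, isGLB_iff_extremal hk hkl hab x⟩,
    (dichotomy k l hk hkl).1, fun h => ?_⟩
  obtain ⟨O, hO, hne, H, -⟩ := (dichotomy k l hk hkl).2 h
  refine ⟨O, hO, hne, fun p => sSup (Vals k l p.1 p.2), fun a b hab => ?_, fun B hB f hf => ?_⟩
  · obtain ⟨x, h1, h2, -⟩ := H a b hab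
    have e : sSup (Vals k l a b) = x := h1.csSup_eq
    simp only [e]
    exact ⟨h1, h2⟩
  · refine meagre_of_not_rad (U := fun p => sSup (Vals k l p.1 p.2)) (fun p hp K hK => ?_) hB hf
    obtain ⟨x, h1, -, h3⟩ := H p.1 p.2 hp
    have e : sSup (Vals k l p.1 p.2) = x := h1.csSup_eq
    simp only [e]
    exact (h3 K hK).1

end Pool.Agent.Results.MP_55068a_an.Complete
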