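import Mathlib
import Pool.Agent.Lib.MP_55068a_an.Dy.Final

namespace Pool.Agent.Results.MP_55068a_an.Dichotomy

open Pool.Agent.Lib.MP_55068a_an Pool.Agent.Lib.MP_55068a_an.Dy

theorem result (k l : ℕ) (hk : 0 < k) (hkl : k < l) :
    (Ratio k l → ∀ a b : ℝ, |a| < 1 → |b| ≤ 1 - a ^ 2 →
      IsGreatest (Vals k l a b) (F k l a b) ∧ IsLeast (Vals k l a b) (-F k l (-a) (-b)) ∧
      Rad ℚ a b (F k l a b) ∧ Rad ℚ a b (-F k l (-a) (-b))) ∧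
    (¬ Ratio k l → ∃ O : Set (ℝ × ℝ), IsOpen O ∧ O.Nonempty ∧
      (∀ a b : ℝ, (a, b) ∈ O → ∃ x : ℝ,
        IsGreatest (Vals k l a b) x ∧ IsLeast (Vals k l (-a) (-b)) (-x) ∧
        ∀ K : Subfield ℂ, AlgebraicIndependent K ![(a : ℂ), (b : ℂ)] →
          ¬ Rad K a b x ∧ ¬ Rad K (-a) (-b) (-x)) ∧
      ∀ K : Subfield ℂ, Countable K →
        ∃ a b : ℝ, (a, b) ∈ O ∧ AlgebraicIndependent K ![(a : ℂ), (b : ℂ)]) :=
  dichotomy k l hk hkl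

end Pool.Agent.Results.MP_55068a_an.Dichotomy
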