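import Mathlib
import Pool.Agent.Lib.MP_55068a_an.Main

namespace Pool.Agent.Results.MP_55068a_an.MainRegion

open Polynomial Pool.Agent.Lib.MP_55068a_an

theorem result (k l : ℕ) (hk : 0 < k) (hkl : k < l) (a u : ℝ) (ha : |a| < 1) :
    (∀ b : ℝ, (∀ x ∈ Vals k l a b, x ≤ hFun k l a u - u * b) ∧
      (∀ x ∈ Vals k l (-a) (-b), -(hFun k l a u - u * b) ≤ x)) ∧
    (IsLUB (Vals k l a (deriv (hFun k l a) u)) (hFun k l a u - u * deriv (hFun k l a) u)
      ↔ PoleFree l (sPoly k l a u)) ∧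
    (IsGLB (Vals k l (-a) (-deriv (hFun k l a) u)) (-(hFun k l a u - u * deriv (hFun k l a) u))
      ↔ PoleFree l (sPoly k l a u)) := by
  have h1 : ∀ b : ℝ, ∀ x ∈ Vals k l a b, x ≤ hFun k l a u - u * b := by
    rintro b x ⟨c, hc, rfl, rfl, rfl⟩
    exact main_bound hk hkl u (sch_of_inHR hc).1
  refine ⟨fun b => ⟨h1 b, fun x hx => ?_⟩, main_isLUB_iff hk hkl ha u, ?_⟩
  · rw [vals_neg] at hx
    have := h1 b _ (Set.mem_neg.1 hx)
    linarith
  · rw [isGLB_vals_neg]; exact main_isLUB_iff hk hkl ha u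

end Pool.Agent.Results.MP_55068a_an.MainRegion
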